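import Pool.Agent.H173M.Large

/-!
# The orders of `h`-homogeneous latin squares for a fixed `h`
-/

set_option autoImplicit false

open Pool.Agent.H173M

/-- For every `h` there is an `N₀` such that for all `n ≥ N₀` there is an `h`-homogeneous latin
square of order `n` if and only if `n` is even or `4` divides `h`. -/
theorem Pool.Agent.Results.MP_03d2dd_co.FixedHomogeneity.result :
    ∀ h : ℕ, ∃ N₀ : ℕ, ∀ n : ℕ, N₀ ≤ n → (HasHomogeneous h n ↔ Even n ∨ 4 ∣ h) :=
  all_large
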